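import Pool.Agent.Lib.MP_6e4f46_an.Extremal
import Pool.Agent.Lib.MP_6e4f46_an.Seq

set_option autoImplicit false

namespace Pool.Agent.Results.MP_6e4f46_an.Unbounded

open MeasureTheory Set Filter Topology Pool.Agent.Lib.MP_6e4f46_an
open scoped InnerProductSpace

/-- **A 1-generated invariant subspace of `A²₁` whose Bergman inner function is not the derivative
of a bounded holomorphic function.** -/
theorem result :
    ∃ H : ℂ → ℂ, InA H ∧ (∃ φ, IsBergmanInner (gen H) φ) ∧
      ∀ φ, IsBergmanInner (gen H) φ → ¬ IsDerivOfBounded φ := by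
  obtain ⟨g, hg0, hgs, hgc, hgu⟩ := exists_seq
  have hB : ∀ k, |g k| ≤ (∑' k, g k * g k) + 1 := by
    intro k
    have h1 : g k * g k ≤ ∑' k, g k * g k :=
      hgs.le_tsum k fun j _ => mul_self_nonneg _
    have h2 := abs_mul_abs_self (g k)
    nlinarith [abs_nonneg (g k), sq_nonneg (|g k| - 1)]
  set B : ℝ := (∑' k, g k * g k) + 1 with hBdef
  let G : ℂ → ℂ := fun z => ∑' k, (g k : ℂ) * z ^ (k + 1)
  have hloc : ∀ z ∈ Metric.ball (0 : ℂ) 1, ∃ ρ : ℝ, z ∈ Metric.ball (0 : ℂ) ρ ∧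
      Summable (fun k : ℕ => B * ρ ^ (k + 1)) ∧
      ∀ (k : ℕ) (w : ℂ), w ∈ Metric.ball (0 : ℂ) ρ →
        ‖(g k : ℂ) * w ^ (k + 1)‖ ≤ B * ρ ^ (k + 1) := by
    intro z hz
    have hz1 : ‖z‖ < 1 := by simpa using hz
    obtain ⟨ρ, h1, h2⟩ := exists_between hz1
    have h0 : 0 ≤ ρ := (norm_nonneg z).trans h1.le
    refine ⟨ρ, by simpa using h1, ?_, ?_⟩
    · exact ((summable_nat_add_iff 1).2 (summable_geometric_of_lt_one h0 h2)).mul_left B
    · intro k w hw
      have hw1 : ‖w‖ ≤ ρ := le_of_lt (by simpa using hw)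
      rw [norm_mul, norm_pow, Complex.norm_real, Real.norm_eq_abs]
      exact mul_le_mul (hB k) (pow_le_pow_left₀ (norm_nonneg _) hw1 _) (by positivity)
        ((abs_nonneg _).trans (hB k))
  have hGsum : ∀ z ∈ Metric.ball (0 : ℂ) 1, HasSum (fun k => (g k : ℂ) * z ^ (k + 1)) (G z) := by
    intro z hz
    obtain ⟨ρ, h1, h2, h3⟩ := hloc z hz
    exact (Summable.of_norm_bounded h2 fun k => h3 k z h1).hasSum
  have hGd : DifferentiableOn ℂ G (Metric.ball 0 1) := by
    intro z hz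
    obtain ⟨ρ, h1, h2, h3⟩ := hloc z hz
    have := Complex.differentiableOn_tsum_of_summable_norm
      (F := fun k w => (g k : ℂ) * w ^ (k + 1)) h2
      (fun k => by fun_prop) Metric.isOpen_ball h3
    exact (this.differentiableAt (Metric.isOpen_ball.mem_nhds h1)).differentiableWithinAt
  let c : ℕ → ℝ := fun k => (k + 1) * g k
  have hφsum : ∀ z ∈ Metric.ball (0 : ℂ) 1,
      HasSum (fun k => (c k : ℂ) * z ^ k) (deriv G z) := by
    intro z hz
    obtain ⟨ρ, h1, h2, h3⟩ := hloc z hz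
    have := Complex.hasSum_deriv_of_summable_norm
      (F := fun k w => (g k : ℂ) * w ^ (k + 1)) h2
      (fun k => by fun_prop) Metric.isOpen_ball h3 h1
    have hfun : (fun k => (c k : ℂ) * z ^ k) =
        fun i => deriv (fun w : ℂ => (g i : ℂ) * w ^ (i + 1)) z := by
      funext k
      rw [deriv_const_mul_field, deriv_pow_field]
      simp only [c, Nat.add_sub_cancel]
      push_cast
      ring
    rw [hfun]
    exact this
  have hc : Summable fun k => c k ^ 2 * wt k := by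
    refine Summable.of_nonneg_of_le (fun k => mul_nonneg (sq_nonneg _) (wt_pos k).le)
      (fun k => ?_) (hgs.mul_left 2)
    simp only [c, wt]
    have hk : (0 : ℝ) ≤ k := by positivity
    rw [← mul_div_assoc, div_le_iff₀ (by positivity)]
    nlinarith [mul_nonneg (mul_self_nonneg (g k)) hk, mul_self_nonneg (g k)]
  have hser := series_L2 c (deriv G) hc hφsum
  obtain ⟨hm0, hs0⟩ := hser 0
  have hfun : (fun z => deriv G z * z ^ 0) = deriv G := by funext z; simp
  have hm : MemLp (deriv G) 2 dA1 := hfun ▸ hm0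
  have hΦ : hm0.toLp _ = hm.toLp _ := MemLp.toLp_congr _ _ (by rw [hfun])
  rw [hΦ] at hs0
  set Φ := hm.toLp (deriv G) with hΦdef
  have hcoef : ∀ j, ⟪mono j, Φ⟫_ℂ = ((c j * wt j : ℝ) : ℂ) := by
    intro j
    have h1 := (innerSL ℂ (mono j)).hasSum hs0
    simp only [innerSL_apply_apply, inner_smul_right, inner_mono, add_zero] at h1
    have h2 : HasSum (fun k => (c k : ℂ) * if j = k then ((wt j : ℝ) : ℂ) else 0)
        ((c j * wt j : ℝ) : ℂ) := by
      have := hasSum_single (f := fun k => (c k : ℂ) * if j = k then ((wt j : ℝ) : ℂ) else 0) j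
        (fun k hk => by rw [if_neg (Ne.symm hk), mul_zero])
      simpa using this
    exact h1.unique h2
  have hc0 : c 0 = 1 := by simp [c, hg0]
  have hA0 : InA (deriv G) := ⟨hGd.deriv Metric.isOpen_ball, hm⟩
  have hval : deriv G 0 = 1 := by
    rw [← inner_mono_zero hA0, hcoef 0, hc0]
    simp [wt]
  have hΦne : Φ ≠ 0 := by
    intro h
    have := hcoef 0
    rw [h, hc0] at this
    simp [wt] at this
  have hs : 0 < ‖Φ‖ := norm_pos_iff.2 hΦne
  set t : ℝ := ‖Φ‖⁻¹ with ht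
  have htpos : 0 < t := inv_pos.2 hs
  have horth : ∀ d : ℕ, 1 ≤ d → ∃ h : MemLp (fun z => deriv G z * z ^ d) 2 dA1,
      ⟪Φ, h.toLp _⟫_ℂ = 0 := by
    intro d hd
    obtain ⟨h1, h2⟩ := hser d
    refine ⟨h1, ?_⟩
    have h3 := (innerSL ℂ Φ).hasSum h2
    simp only [innerSL_apply_apply, inner_smul_right] at h3
    have h4 : HasSum (fun k => (c k : ℂ) * ⟪Φ, mono (k + d)⟫_ℂ) 0 := by
      have h5 := (Complex.hasSum_ofReal.2 ((hgc d hd).mul_left 2))
      simp only [mul_zero, Complex.ofReal_zero] at h5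
      convert h5 using 2 with k
      rw [← inner_conj_symm, hcoef, Complex.conj_ofReal, ← Complex.ofReal_mul]
      congr 1
      simp only [c, wt]
      push_cast
      field_simp
    exact h3.unique h4
  let φ : ℂ → ℂ := (t : ℂ) • deriv G
  have hA : InA φ := ⟨hA0.1.const_smul (t : ℂ), hm.const_smul (t : ℂ)⟩
  have hφL : hA.2.toLp φ = (t : ℂ) • Φ := MemLp.toLp_const_smul (t : ℂ) hm
  obtain ⟨hex, huniq⟩ := extremal φ hA t htpos (by simp [φ, hval])
    (by rw [hφL, norm_smul, Complex.norm_real, Real.norm_eq_abs, abs_of_pos htpos, ht,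
          inv_mul_cancel₀ hs.ne'])
    (by
      intro d hd
      obtain ⟨h1, h2⟩ := horth d hd
      have : (fun z => φ z * z ^ d) = (t : ℂ) • (fun z => deriv G z * z ^ d) := by
        funext z; simp [φ, mul_assoc]
      rw [this]
      refine ⟨h1.const_smul _, ?_⟩
      rw [MemLp.toLp_const_smul (t : ℂ) h1, hφL, inner_smul_left, inner_smul_right, h2]
      simp)
  refine ⟨φ, hA, ⟨φ, hex⟩, ?_⟩
  rintro ψ hψ ⟨F, hF, ⟨C, hC⟩, hF'⟩
  have hconn : IsPreconnected (Metric.ball (0 : ℂ) 1) := (convex_ball 0 1).isPreconnected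
  obtain ⟨a, ha⟩ := Metric.isOpen_ball.exists_eq_add_of_deriv_eq hconn
    (hGd.const_smul (t : ℂ)) hF (by
      intro z hz
      rw [hF' z hz, huniq ψ hψ z hz, deriv_const_smul_field]
      rfl)
  obtain ⟨r, hr0, hr1, hr⟩ := hgu ((C + ‖a‖) / t)
  have hrb : (r : ℂ) ∈ Metric.ball (0 : ℂ) 1 := by
    simpa [abs_of_nonneg hr0] using hr1
  have h1 : HasSum (fun k => r ^ (k + 1) * g k) (G r).re := by
    have := Complex.hasSum_re (hGsum r hrb)
    convert this using 2 with k
    rw [← Complex.ofReal_pow, ← Complex.ofReal_mul, Complex.ofReal_re, mul_comm]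
  have h2 := hr _ h1
  rw [div_lt_iff₀ htpos] at h2
  have h3 : (t : ℂ) * G r = F r + a := ha hrb
  have h4 : t * ‖G r‖ ≤ C + ‖a‖ := by
    calc t * ‖G r‖ = ‖(t : ℂ) * G r‖ := by
          rw [norm_mul, Complex.norm_real, Real.norm_eq_abs, abs_of_pos htpos]
      _ ≤ ‖F r‖ + ‖a‖ := by rw [h3]; exact norm_add_le _ _
      _ ≤ C + ‖a‖ := by linarith [hC r hrb]
  have h5 : (G r).re ≤ ‖G r‖ := Complex.re_le_norm _
  nlinarith

end Pool.Agent.Results.MP_6e4f46_an.Unbounded
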